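import Pool.Agent.Y527.HK.Hom

/-!
# The constant of Hardy, Littlewood, Pólya and Bonsall is never best possible for non-conjugate
exponents

Let `p, q > 1` with `1/p + 1/q > 1`, `λ = 2 - 1/p - 1/q < 1` and `θ = (1 - 1/p) / λ`. For a kernel
`K ≥ 0` on `(0, ∞)²` which is homogeneous of degree `-1` put `k = ∫₀^∞ K(x, 1) x^(θ - 1) dx`. It is
classical that `∬ f(x) g(y) K(x, y)^λ dx dy ≤ k^λ ‖f‖_p ‖g‖_q`; for `K(x, y) = 1 / (x + y)` the
constant `k^λ` is Levin's constant `K(p, q)`, and it was asked whether it is best possible, for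
functions and for series. The file shows that for no homogeneous kernel the constant `k^λ` is best
possible: there is an explicit factor `κ(p, q) < 1`, the same for all kernels,

`κ(p, q) = (4095 / 4096) ^ (2 min(1/p + 1/q - 1, 1 - 1/p, 1 - 1/q))`,

such that the inequality holds with `κ(p, q) k^λ`; the same holds for series if the kernel decreases
in both variables.

Idea. In logarithmic variables the inequality is Young's inequality on the line, for three
probability densities `u`, `v`, `H`. If it is almost an equality, then `v` is close to `H(s - ·)` for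
most `s` (with respect to `u`), and `u` is close to `H(· - t)` for most `t` (with respect to `v`). So
there are two such points `s` whose distance is larger than the distance between the quartiles of
`H`, and then `H(s - ·)` and `H(s' - ·)` are not close to each other.
-/

set_option autoImplicit false

open MeasureTheory Set
open scoped ENNReal NNReal

namespace Pool.Agent.Results.MP_27276c_an.HomogeneousKernels

open Pool.Agent.H797R2.Hilbert Pool.Agent.Y527.HK

theorem K1_rpow {l x : ℝ} (hl : 0 < l) (hx : 0 ≤ x) :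
    (ENNReal.ofReal x⁻¹) ^ l = ENNReal.ofReal (x ^ (-l)) := by
  rw [ENNReal.ofReal_rpow_of_nonneg (by positivity) hl.le, Real.inv_rpow hx, Real.rpow_neg hx]

theorem result (p q : ℝ) (hp : 1 < p) (hq : 1 < q) (hpq : 1 < 1 / p + 1 / q) :
    -- the factor
    (0 < gain p q ∧ gain p q < 1) ∧
    -- all homogeneous kernels
    (∀ K : ℝ → ℝ → ℝ≥0∞, Homog K →
      (∀ f g : ℝ → ℝ≥0∞, Measurable f → Measurable g →
        ∫⁻ x in Ioi (0 : ℝ), ∫⁻ y in Ioi (0 : ℝ), f x * g y * (K x y) ^ (lam p q)
          ≤ ENNReal.ofReal (gain p q) * (kc K p q) ^ (lam p q) *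
            (∫⁻ x in Ioi (0 : ℝ), f x ^ p) ^ (1 / p) *
            (∫⁻ y in Ioi (0 : ℝ), g y ^ q) ^ (1 / q)) ∧
      ((∀ x y x' y' : ℝ, 0 < x → x ≤ x' → 0 < y → y ≤ y' → K x' y' ≤ K x y) →
        ∀ a b : ℕ → ℝ≥0∞,
          ∑' m : ℕ, ∑' n : ℕ, a m * b n * (K ((m : ℝ) + 1) ((n : ℝ) + 1)) ^ (lam p q)
            ≤ ENNReal.ofReal (gain p q) * (kc K p q) ^ (lam p q) *
              (∑' m : ℕ, a m ^ p) ^ (1 / p) * (∑' n : ℕ, b n ^ q) ^ (1 / q)) ∧
      (kc K p q ≠ 0 → kc K p q ≠ ⊤ →
        ENNReal.ofReal (gain p q) * (kc K p q) ^ (lam p q) < (kc K p q) ^ (lam p q))) ∧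
    -- Levin's inequalities
    (SeriesIneq p q (gain p q * KK p q) ∧ IntegralIneq p q (gain p q * KK p q) ∧
      0 < gain p q * KK p q ∧ gain p q * KK p q < KK p q) := by
  have hl := lam_pos hp hq hpq
  have hg0 := gain_pos hp hq hpq
  have hg1 := gain_lt hp hq hpq
  have hKK := KK_pos hp hq hpq
  refine ⟨⟨hg0, hg1⟩, fun K hK => ⟨fun f g hf hg => hom_ineq hp hq hpq hK f g hf hg,
    fun hanti a b => series_ineq hp hq hpq hK hanti a b, fun h0 ht => ?_⟩, ?_, ?_, by positivity,
    by nlinarith⟩
  · have h1 : (kc K p q) ^ (lam p q) ≠ 0 :=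
      (ENNReal.rpow_pos_of_nonneg (pos_iff_ne_zero.2 h0) hl.le).ne'
    have h2 : (kc K p q) ^ (lam p q) ≠ ⊤ := ENNReal.rpow_ne_top_of_nonneg hl.le ht
    have h3 : ENNReal.ofReal (gain p q) < 1 := by
      rw [← ENNReal.ofReal_one]
      exact (ENNReal.ofReal_lt_ofReal_iff one_pos).2 hg1
    calc ENNReal.ofReal (gain p q) * (kc K p q) ^ (lam p q) < 1 * (kc K p q) ^ (lam p q) :=
          ENNReal.mul_lt_mul_left h1 h2 h3
      _ = _ := one_mul _
  · intro a b
    have h := series_ineq hp hq hpq K1_homog (fun x y x' y' hx hxx hy hyy => by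
      unfold K1
      apply ENNReal.ofReal_le_ofReal
      apply inv_anti₀ (by positivity)
      linarith) (fun m => (a m : ℝ≥0∞)) (fun n => (b n : ℝ≥0∞))
    rw [kc_K1 hp hq hpq, ← ENNReal.ofReal_mul hg0.le] at h
    refine le_trans (le_of_eq ?_) h
    apply tsum_congr
    intro m
    apply tsum_congr
    intro n
    unfold K1
    rw [K1_rpow hl (by positivity)]
  · intro f g hf hg
    have h := hom_ineq hp hq hpq K1_homog (fun x => (f x : ℝ≥0∞)) (fun x => (g x : ℝ≥0∞))
      hf.coe_nnreal_ennreal hg.coe_nnreal_ennreal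
    rw [kc_K1 hp hq hpq, ← ENNReal.ofReal_mul hg0.le] at h
    refine le_trans (le_of_eq ?_) h
    apply setLIntegral_congr_fun measurableSet_Ioi
    intro x hx
    apply setLIntegral_congr_fun measurableSet_Ioi
    intro y hy
    simp only [mem_Ioi] at hx hy
    simp only [K1]
    rw [K1_rpow hl (by positivity)]

end Pool.Agent.Results.MP_27276c_an.HomogeneousKernels
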